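import Mathlib

/-!
# Sublinear functionals and pairwise hidden points: the algebraic core

Let `ν ≤ μ` be sublinear functionals on a real vector space.  If the region `ν < μ` cannot be
covered by finitely many functionals `ℓ ≤ μ` (touching `μ` there), then there is an infinite
sequence of points `z n` with `ν (z n) ≤ 1 < μ (z n)`, such that every segment `[z n, z m]`
meets `{μ ≤ 1}`.
-/

namespace Pool.Agent.R270.Hidden

open Set Filter Topology

variable {V : Type*} [AddCommGroup V] [Module ℝ V]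

/-- A sublinear functional. -/
structure Sublin (μ : V → ℝ) : Prop where
  add : ∀ x y, μ (x + y) ≤ μ x + μ y
  smul : ∀ c : ℝ, 0 ≤ c → ∀ x, μ (c • x) = c * μ x

namespace Sublin

variable {μ : V → ℝ}

theorem zero (h : Sublin μ) : μ 0 = 0 := by
  have := h.smul 0 le_rfl 0
  simpa using this

theorem neg_le (h : Sublin μ) (x : V) : -μ (-x) ≤ μ x := by
  have := h.add x (-x)
  rw [add_neg_cancel, h.zero] at this
  linarith

/-- the bound for perturbations -/
theorem pert_le (h : Sublin μ) (y v : V) {s : ℝ} (hs : 0 ≤ s) :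
    μ (y + s • v) ≤ μ y + s * μ v := by
  have := h.add y (s • v)
  rw [h.smul s hs] at this
  exact this

theorem le_pert (h : Sublin μ) (y v : V) {s : ℝ} (hs : 0 ≤ s) :
    μ y - s * μ (-v) ≤ μ (y + s • v) := by
  have := h.add (y + s • v) (s • (-v))
  rw [h.smul s hs] at this
  have e : y + s • v + s • -v = y := by simp
  rw [e] at this
  linarith

end Sublin

/-- `Lt μ y x β`: the directional derivative of `μ` at `y` in the direction `x` is `< β`. -/
def Lt (μ : V → ℝ) (y x : V) (β : ℝ) : Prop := ∃ t : ℝ, 0 < t ∧ μ (y + t • x) < μ y + t * β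

/-- Sets stable under small perturbations. -/
def PertOpen (R : Set V) : Prop :=
  ∀ y ∈ R, ∀ v : V, ∃ s₀ : ℝ, 0 < s₀ ∧ ∀ s : ℝ, 0 ≤ s → s ≤ s₀ → y + s • v ∈ R

/-- Sets on which `μ` is attained by finitely many linear functionals `≤ μ`. -/
def Small (μ : V → ℝ) (R : Set V) : Prop :=
  ∃ L : Finset (V →ₗ[ℝ] ℝ), (∀ l ∈ L, ∀ v, l v ≤ μ v) ∧ ∀ x ∈ R, ∃ l ∈ L, μ x ≤ l x

/-- approximate genericity -/
def Gen (μ : V → ℝ) (y v : V) (δ : ℝ) : Prop := ∃ β : ℝ, Lt μ y v β ∧ Lt μ y (-v) (δ - β)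

theorem PertOpen.inter {R S : Set V} (hR : PertOpen R) (hS : PertOpen S) :
    PertOpen (R ∩ S) := by
  intro y hy v
  obtain ⟨s, hs, h1⟩ := hR y hy.1 v
  obtain ⟨t, ht, h2⟩ := hS y hy.2 v
  refine ⟨min s t, lt_min hs ht, fun r hr hr' => ⟨h1 r hr (hr'.trans (min_le_left _ _)),
    h2 r hr (hr'.trans (min_le_right _ _))⟩⟩

/-- strict inequalities between perturbation-continuous quantities -/
theorem Lt.pert {μ : V → ℝ} (h : Sublin μ) (x : V) (β : ℝ) : PertOpen {y | Lt μ y x β} := by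
  intro y hy v
  obtain ⟨t, ht, hlt⟩ := hy
  set g : ℝ := μ y + t * β - μ (y + t • x) with hg
  have hgpos : 0 < g := by rw [hg]; linarith
  set M : ℝ := |μ v| + |μ (-v)| + 1 with hM
  have hMpos : 0 < M := by positivity
  refine ⟨g / (2 * M), by positivity, fun s hs hs' => ⟨t, ht, ?_⟩⟩
  have h1 : μ (y + s • v + t • x) ≤ μ (y + t • x) + s * μ v := by
    have := h.pert_le (y + t • x) v hs
    have e : y + t • x + s • v = y + s • v + t • x := by abel
    rwa [e] at this
  have h2 := h.le_pert y v hs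
  have h3 : s * M ≤ g / 2 := by
    have : s * M ≤ g / (2 * M) * M := mul_le_mul_of_nonneg_right hs' hMpos.le
    have e : g / (2 * M) * M = g / 2 := by field_simp
    rwa [e] at this
  have h4 : s * μ v ≤ s * |μ v| := mul_le_mul_of_nonneg_left (le_abs_self _) hs
  have h5 : s * μ (-v) ≤ s * |μ (-v)| := mul_le_mul_of_nonneg_left (le_abs_self _) hs
  have h6 : s * |μ v| + s * |μ (-v)| ≤ s * M := by rw [hM]; nlinarith [hs]
  have h7 : s * |μ v| + s * |μ (-v)| ≤ g / 2 := h6.trans h3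
  rw [hg] at h7
  linarith

theorem Lt.mono {μ : V → ℝ} {y x : V} {β γ : ℝ} (hβ : Lt μ y x β) (h : β ≤ γ) :
    Lt μ y x γ := by
  obtain ⟨t, ht, h1⟩ := hβ
  exact ⟨t, ht, h1.trans_le (by nlinarith)⟩

theorem Gen.pert {μ : V → ℝ} (h : Sublin μ) (v : V) (δ : ℝ) : PertOpen {y | Gen μ y v δ} := by
  intro y hy w
  obtain ⟨β, h1, h2⟩ := hy
  obtain ⟨s, hs, H⟩ := (Lt.pert h v β).inter (Lt.pert h (-v) (δ - β)) y ⟨h1, h2⟩ w
  exact ⟨s, hs, fun r hr hr' => ⟨β, (H r hr hr').1, (H r hr hr').2⟩⟩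

/-- a linear functional `≤ μ` with `l y < μ y` keeps this property nearby -/
theorem pert_lin {μ : V → ℝ} (h : Sublin μ) (l : V →ₗ[ℝ] ℝ) : PertOpen {y | l y < μ y} := by
  intro y hy v
  have hy' : l y < μ y := hy
  set g : ℝ := μ y - l y with hg
  have hgpos : 0 < g := by rw [hg]; linarith
  set M : ℝ := |l v| + |μ (-v)| + 1 with hM
  have hMpos : 0 < M := by positivity
  refine ⟨g / (2 * M), by positivity, fun s hs hs' => ?_⟩
  have h2 := h.le_pert y v hs
  have h3 : s * M ≤ g / 2 := by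
    have : s * M ≤ g / (2 * M) * M := mul_le_mul_of_nonneg_right hs' hMpos.le
    have e : g / (2 * M) * M = g / 2 := by field_simp
    rwa [e] at this
  have h4 : s * l v ≤ s * |l v| := mul_le_mul_of_nonneg_left (le_abs_self _) hs
  have h5 : s * μ (-v) ≤ s * |μ (-v)| := mul_le_mul_of_nonneg_left (le_abs_self _) hs
  have h6 : s * |l v| + s * |μ (-v)| ≤ s * M := by rw [hM]; nlinarith [hs]
  have h7 : s * |l v| + s * |μ (-v)| ≤ g / 2 := h6.trans h3
  show l (y + s • v) < μ (y + s • v)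
  rw [map_add, map_smul, smul_eq_mul]
  rw [hg] at h7
  linarith

theorem pert_lt {μ ν : V → ℝ} (hμ : Sublin μ) (hν : Sublin ν) : PertOpen {y | ν y < μ y} := by
  intro y hy v
  have hy' : ν y < μ y := hy
  set g : ℝ := μ y - ν y with hg
  have hgpos : 0 < g := by rw [hg]; linarith
  set M : ℝ := |ν v| + |μ (-v)| + 1 with hM
  have hMpos : 0 < M := by positivity
  refine ⟨g / (2 * M), by positivity, fun s hs hs' => ?_⟩
  have h2 := hμ.le_pert y v hs
  have h2' := hν.pert_le y v hs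
  have h3 : s * M ≤ g / 2 := by
    have : s * M ≤ g / (2 * M) * M := mul_le_mul_of_nonneg_right hs' hMpos.le
    have e : g / (2 * M) * M = g / 2 := by field_simp
    rwa [e] at this
  have h4 : s * ν v ≤ s * |ν v| := mul_le_mul_of_nonneg_left (le_abs_self _) hs
  have h5 : s * μ (-v) ≤ s * |μ (-v)| := mul_le_mul_of_nonneg_left (le_abs_self _) hs
  have h6 : s * |ν v| + s * |μ (-v)| ≤ s * M := by rw [hM]; nlinarith [hs]
  have h7 : s * |ν v| + s * |μ (-v)| ≤ g / 2 := h6.trans h3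
  show ν (y + s • v) < μ (y + s • v)
  rw [hg] at h7
  linarith

theorem pert_finset {μ : V → ℝ} (h : Sublin μ) {R : Set V} (hR : PertOpen R)
    (L : Finset (V →ₗ[ℝ] ℝ)) : PertOpen {y | y ∈ R ∧ ∀ l ∈ L, l y < μ y} := by
  classical
  induction L using Finset.induction_on with
  | empty => simpa using hR
  | insert l L _ ih =>
    have := ih.inter (pert_lin h l)
    have e : {y | y ∈ R ∧ ∀ l' ∈ insert l L, l' y < μ y} =
        {y | y ∈ R ∧ ∀ l ∈ L, l y < μ y} ∩ {y | l y < μ y} := by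
      ext y
      simp only [Finset.mem_insert, forall_eq_or_imp, mem_setOf_eq, mem_inter_iff]
      tauto
    rw [e]; exact this

/-- Generic points for one direction. -/
theorem exists_gen {μ : V → ℝ} (h : Sublin μ) {R : Set V} (hR : PertOpen R)
    (hne : R.Nonempty) (v : V) {δ : ℝ} (hδ : 0 < δ) : ∃ y ∈ R, Gen μ y v δ := by
  obtain ⟨y, hy⟩ := hne
  obtain ⟨s₀, hs₀, hs⟩ := hR y hy v
  set M : ℝ := |μ v| + |μ (-v)| with hM
  obtain ⟨N, hN⟩ := exists_nat_gt (M / δ)
  set η : ℝ := s₀ / (N + 1) with hη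
  have hηpos : 0 < η := by positivity
  set φ : ℕ → ℝ := fun k => μ (y + (k * η) • v) with hφ
  have hbound : φ (N + 1) - φ N ≤ η * |μ v| := by
    have h1 := h.pert_le (y + ((N : ℝ) * η) • v) v hηpos.le
    have e : y + ((N : ℝ) * η) • v + η • v = y + (((N + 1 : ℕ) : ℝ) * η) • v := by
      push_cast; module
    rw [e] at h1
    have : η * μ v ≤ η * |μ v| := mul_le_mul_of_nonneg_left (le_abs_self _) hηpos.le
    simp only [hφ]; linarith
  have hbound0 : -(η * |μ (-v)|) ≤ φ 1 - φ 0 := by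
    have h1 := h.le_pert y v hηpos.le
    have : η * μ (-v) ≤ η * |μ (-v)| := mul_le_mul_of_nonneg_left (le_abs_self _) hηpos.le
    simp only [hφ]
    simp only [Nat.cast_one, one_mul, Nat.cast_zero, zero_mul, zero_smul, add_zero]
    linarith
  -- some second difference is small
  have hex : ∃ k < N, (φ (k + 2) - φ (k + 1)) - (φ (k + 1) - φ k) < η * δ := by
    by_contra hcon
    push Not at hcon
    have hsum : ∀ n ≤ N, (n : ℝ) * (η * δ) ≤ (φ (n + 1) - φ n) - (φ 1 - φ 0) := by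
      intro n
      induction n with
      | zero => intro _; simp
      | succ n ih =>
        intro hn
        have h1 := ih (by omega)
        have h2 := hcon n (by omega)
        push_cast
        linarith
    have h1 := hsum N le_rfl
    have h2 : M < N * δ := by
      rwa [div_lt_iff₀ hδ] at hN
    have h3 : (N : ℝ) * (η * δ) ≤ η * M := by
      rw [hM]; linarith
    have h4 : η * M < η * (N * δ) := mul_lt_mul_of_pos_left h2 hηpos
    linarith [mul_left_comm (N : ℝ) η δ]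
  obtain ⟨k, hk, hlt⟩ := hex
  refine ⟨y + (((k + 1 : ℕ) : ℝ) * η) • v, hs _ (by positivity) ?_, ?_⟩
  · have : (((k + 1 : ℕ) : ℝ)) ≤ N + 1 := by push_cast; exact_mod_cast (by omega)
    calc (((k + 1 : ℕ) : ℝ)) * η ≤ (N + 1) * η := mul_le_mul_of_nonneg_right this hηpos.le
      _ = s₀ := by rw [hη]; field_simp
  · set a : ℝ := (φ (k + 2) - φ (k + 1)) / η with ha
    set b : ℝ := (φ (k + 1) - φ k) / η with hb
    have hab : a - b < δ := by
      rw [ha, hb, ← sub_div, div_lt_iff₀ hηpos]; linarith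
    obtain ⟨β, hβ1, hβ2⟩ := exists_between (show a < b + δ by linarith)
    refine ⟨β, ⟨η, hηpos, ?_⟩, ⟨η, hηpos, ?_⟩⟩
    · have e : y + (((k + 1 : ℕ) : ℝ) * η) • v + η • v = y + (((k + 2 : ℕ) : ℝ) * η) • v := by
        push_cast; module
      rw [e]
      have : φ (k + 2) - φ (k + 1) < η * β := by
        rw [ha, div_lt_iff₀ hηpos] at hβ1; linarith
      simp only [hφ] at this
      linarith
    · have e : y + (((k + 1 : ℕ) : ℝ) * η) • v + η • -v = y + ((k : ℝ) * η) • v := by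
        push_cast; module
      rw [e]
      have : η * (β - δ) < φ (k + 1) - φ k := by
        have : β - δ < b := by linarith
        rw [hb, lt_div_iff₀ hηpos] at this; linarith
      simp only [hφ] at this
      linarith

theorem exists_genFin {μ : V → ℝ} (h : Sublin μ) (W : Finset V) {δ : ℝ} (hδ : 0 < δ) :
    ∀ {R : Set V}, PertOpen R → R.Nonempty → ∃ y ∈ R, ∀ v ∈ W, Gen μ y v δ := by
  classical
  induction W using Finset.induction_on with
  | empty => intro R _ hne; obtain ⟨y, hy⟩ := hne; exact ⟨y, hy, by simp⟩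
  | insert w W _ ih =>
    intro R hR hne
    obtain ⟨y, hy, hg⟩ := exists_gen h hR hne w hδ
    obtain ⟨z, hz, hzg⟩ := ih (hR.inter (Gen.pert h w δ)) ⟨y, hy, hg⟩
    refine ⟨z, hz.1, ?_⟩
    intro v hv
    rcases Finset.mem_insert.1 hv with rfl | hv
    · exact hz.2
    · exact hzg v hv

/-- Hahn–Banach: a linear functional `≤ μ` touching `μ` at `y`. -/
theorem exists_subgradient {μ : V → ℝ} (h : Sublin μ) (y : V) :
    ∃ l : V →ₗ[ℝ] ℝ, (∀ v, l v ≤ μ v) ∧ l y = μ y := by
  have H : ∀ c : ℝ, c • y = 0 → (RingHom.id ℝ) c • μ y = 0 := by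
    intro c hc
    rcases smul_eq_zero.1 hc with hc | hc
    · simp [hc]
    · simp [hc, h.zero]
  obtain ⟨g, hg1, hg2⟩ := exists_extension_of_le_sublinear
    (LinearPMap.mkSpanSingleton' y (μ y) H) μ
    (fun c hc x => h.smul c hc.le x) h.add (by
      rintro ⟨x, hx⟩
      obtain ⟨c, rfl⟩ := Submodule.mem_span_singleton.1 hx
      have e := LinearPMap.mkSpanSingleton'_apply y (μ y) H c hx
      rw [e]
      show c • μ y ≤ μ (c • y)
      rcases le_total 0 c with hc | hc
      · rw [h.smul c hc, smul_eq_mul]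
      · have h1 := h.neg_le (c • y)
        have h2 : μ (-(c • y)) = -c * μ y := by
          rw [← neg_smul, h.smul (-c) (by linarith)]
        rw [h2] at h1
        rw [smul_eq_mul]; linarith)
  refine ⟨g, hg2, ?_⟩
  have := hg1 ⟨y, Submodule.mem_span_singleton_self y⟩
  rw [this]
  exact LinearPMap.mkSpanSingleton'_apply_self y (μ y) H _

/-- Compactness: if for every finite subset of `R` and `ε > 0` some linear functional `≤ μ`
`ε`-touches `μ` on it, then some linear functional `≤ μ` touches `μ` on `R`. -/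
theorem exists_touch {μ : V → ℝ} (h : Sublin μ) (R : Set V)
    (H : ∀ (W : Finset V), ↑W ⊆ R → ∀ ε : ℝ, 0 < ε →
      ∃ l : V →ₗ[ℝ] ℝ, (∀ v, l v ≤ μ v) ∧ ∀ v ∈ W, μ v - ε ≤ l v) :
    ∃ l : V →ₗ[ℝ] ℝ, (∀ v, l v ≤ μ v) ∧ ∀ v ∈ R, μ v ≤ l v := by
  classical
  -- the compact set of all functions between the natural bounds
  set K : Set (V → ℝ) := Set.univ.pi (fun v => Set.Icc (-μ (-v)) (μ v)) with hK
  have hKc : IsCompact K := isCompact_univ_pi (fun v => isCompact_Icc)
  set lin : Set (V → ℝ) := {f | (∀ x y, f (x + y) = f x + f y) ∧ ∀ (c : ℝ) x, f (c • x) = c * f x}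
    with hlin
  have hlinc : IsClosed lin := by
    have e : lin = (⋂ (x : V) (y : V), {f : V → ℝ | f (x + y) = f x + f y}) ∩
        (⋂ (c : ℝ) (x : V), {f : V → ℝ | f (c • x) = c * f x}) := by
      ext f
      simp [hlin]
    rw [e]
    refine IsClosed.inter ?_ ?_
    · refine isClosed_iInter fun x => isClosed_iInter fun y => ?_
      exact isClosed_eq (by fun_prop) (by fun_prop)
    · refine isClosed_iInter fun c => isClosed_iInter fun x => ?_
      exact isClosed_eq (by fun_prop) (by fun_prop)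
  set F : (↥R × ℕ) → Set (V → ℝ) := fun p => {f | f ∈ lin ∧ μ p.1 - 1 / ((p.2 : ℝ) + 1) ≤ f p.1}
    with hF
  have hFc : ∀ p, IsClosed (F p) := by
    intro p
    have : F p = lin ∩ {f : V → ℝ | μ p.1 - 1 / ((p.2 : ℝ) + 1) ≤ f p.1} := rfl
    rw [this]
    exact hlinc.inter (isClosed_le continuous_const (by fun_prop))
  by_cases hR : R = ∅
  · obtain ⟨l, hl, _⟩ := exists_subgradient h 0
    exact ⟨l, hl, by simp [hR]⟩
  have hRne : R.Nonempty := nonempty_iff_ne_empty.2 hR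
  obtain ⟨r₀, hr₀⟩ := hRne
  have hne : (K ∩ ⋂ p, F p).Nonempty := by
    refine hKc.inter_iInter_nonempty F hFc ?_
    intro u
    -- finitely many conditions
    set W : Finset V := u.image (fun p => (p.1 : V)) with hW
    obtain ⟨N, hN⟩ : ∃ N : ℕ, ∀ p ∈ u, p.2 ≤ N := by
      refine ⟨u.sup (fun p => p.2), fun p hp => Finset.le_sup (f := fun p => p.2) hp⟩
    obtain ⟨l, hl1, hl2⟩ := H W (by
      intro v hv
      simp only [hW, Finset.coe_image, mem_image, Finset.mem_coe] at hv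
      obtain ⟨p, _, rfl⟩ := hv
      exact p.1.2) (1 / ((N : ℝ) + 1)) (by positivity)
    refine ⟨fun v => l v, ?_, ?_⟩
    · rw [hK, Set.mem_univ_pi]
      intro v
      refine ⟨?_, hl1 v⟩
      have := hl1 (-v)
      rw [map_neg] at this
      linarith
    · simp only [mem_iInter]
      intro p hp
      refine ⟨⟨fun x y => map_add l x y, fun c x => by simp⟩, ?_⟩
      have h1 := hl2 p.1 (Finset.mem_image.2 ⟨p, hp, rfl⟩)
      have h2 : 1 / ((N : ℝ) + 1) ≤ 1 / ((p.2 : ℝ) + 1) := by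
        apply one_div_le_one_div_of_le (by positivity)
        have : (p.2 : ℝ) ≤ N := by exact_mod_cast hN p hp
        linarith
      show μ p.1 - 1 / ((p.2 : ℝ) + 1) ≤ l p.1
      linarith
  obtain ⟨f, hfK, hfF⟩ := hne
  simp only [mem_iInter] at hfF
  have hflin : f ∈ lin := (hfF (⟨r₀, hr₀⟩, 0)).1
  refine ⟨{ toFun := f, map_add' := hflin.1, map_smul' := (fun c x => hflin.2 c x) }, ?_, ?_⟩
  · intro v
    rw [hK, Set.mem_univ_pi] at hfK
    exact (hfK v).2
  · intro v hv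
    show μ v ≤ f v
    by_contra hcon
    push Not at hcon
    obtain ⟨n, hn⟩ := exists_nat_one_div_lt (sub_pos.2 hcon)
    have := (hfF (⟨v, hv⟩, n)).2
    simp only at this
    linarith

/-- The key step: a perturbation-open, non-small set stays non-small after hiding. -/
theorem key_step {μ : V → ℝ} (h : Sublin μ) {R : Set V} (hR : PertOpen R) (hns : ¬ Small μ R) :
    ∃ x ∈ R, ∃ ε : ℝ, 0 < ε ∧ ¬ Small μ {y | y ∈ R ∧ Lt μ y x (μ x - ε)} := by
  classical
  by_contra hcon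
  push Not at hcon
  apply hns
  obtain ⟨l, hl1, hl2⟩ := exists_touch h R (by
    intro W hW ε hε
    -- transversals
    have hsm : ∀ v ∈ R, Small μ {y | y ∈ R ∧ Lt μ y v (μ v - ε / 2)} :=
      fun v hv => hcon v hv (ε / 2) (by positivity)
    choose! L hL1 hL2 using hsm
    set LL : Finset (V →ₗ[ℝ] ℝ) := W.biUnion L with hLL
    have hLLle : ∀ l ∈ LL, ∀ v, l v ≤ μ v := by
      intro l hl
      obtain ⟨w, hw, hlw⟩ := Finset.mem_biUnion.1 hl
      exact hL1 w (hW hw) l hlw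
    have hne : {y | y ∈ R ∧ ∀ l ∈ LL, l y < μ y}.Nonempty := by
      by_contra hemp
      rw [Set.not_nonempty_iff_eq_empty] at hemp
      apply hns
      refine ⟨LL, hLLle, fun x hx => ?_⟩
      by_contra hx2
      push Not at hx2
      have : x ∈ {y | y ∈ R ∧ ∀ l ∈ LL, l y < μ y} := ⟨hx, hx2⟩
      rw [hemp] at this
      exact this
    obtain ⟨y, hy, hgen⟩ := exists_genFin h W (half_pos hε) (pert_finset h hR LL) hne
    obtain ⟨l, hl1, hl2⟩ := exists_subgradient h y
    refine ⟨l, hl1, fun v hv => ?_⟩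
    have hvR : v ∈ R := hW hv
    have hnot : ¬ Lt μ y v (μ v - ε / 2) := by
      intro hlt
      obtain ⟨l', hl', hl''⟩ := hL2 v hvR y ⟨hy.1, hlt⟩
      have := hy.2 l' (Finset.mem_biUnion.2 ⟨v, hv, hl'⟩)
      linarith
    obtain ⟨β, hβ1, t, ht, hβ2⟩ := hgen v hv
    have hβ : μ v - ε / 2 < β := by
      by_contra hc
      push Not at hc
      exact hnot (hβ1.mono hc)
    have h3 := hl1 (y + t • -v)
    rw [map_add, map_smul, map_neg, hl2, smul_eq_mul] at h3
    have h4 : t * (β - ε / 2) < t * l v := by nlinarith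
    have h5 := lt_of_mul_lt_mul_left h4 ht.le
    linarith)
  exact ⟨{l}, by simpa using hl1, fun x hx => ⟨l, by simp, hl2 x hx⟩⟩

/-- The recursion. -/
theorem exists_seq {μ : V → ℝ} (h : Sublin μ) {Ω : Set V} (hΩ : PertOpen Ω)
    (hns : ¬ Small μ Ω) :
    ∃ (x : ℕ → V) (ε : ℕ → ℝ), (∀ n, x n ∈ Ω ∧ 0 < ε n) ∧
      ∀ n m, n < m → Lt μ (x m) (x n) (μ (x n) - ε n) := by
  classical
  let T := {R : Set V // PertOpen R ∧ ¬ Small μ R ∧ R ⊆ Ω}
  have hstep : ∀ R : T, ∃ p : V × ℝ, p.1 ∈ R.1 ∧ 0 < p.2 ∧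
      ¬ Small μ {y | y ∈ R.1 ∧ Lt μ y p.1 (μ p.1 - p.2)} := by
    intro R
    obtain ⟨x, hx, ε, hε, hs⟩ := key_step h R.2.1 R.2.2.1
    exact ⟨(x, ε), hx, hε, hs⟩
  choose p hp1 hp2 hp3 using hstep
  let next : T → T := fun R => ⟨{y | y ∈ R.1 ∧ Lt μ y (p R).1 (μ (p R).1 - (p R).2)},
    R.2.1.inter (Lt.pert h _ _), hp3 R, fun y hy => R.2.2.2 hy.1⟩
  let seq : ℕ → T := fun n => Nat.rec ⟨Ω, hΩ, hns, Subset.rfl⟩ (fun _ R => next R) n
  have hseq : ∀ n, seq (n + 1) = next (seq n) := fun n => rfl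
  have hanti : ∀ n m, n ≤ m → (seq m).1 ⊆ (seq n).1 := by
    intro n m hnm
    induction hnm with
    | refl => exact Subset.rfl
    | step _ ih =>
      refine Subset.trans ?_ ih
      rw [hseq]
      exact fun y hy => hy.1
  refine ⟨fun n => (p (seq n)).1, fun n => (p (seq n)).2,
    fun n => ⟨(seq n).2.2.2 (hp1 _), hp2 _⟩, fun n m hnm => ?_⟩
  have h1 : (p (seq m)).1 ∈ (seq (n + 1)).1 := hanti (n + 1) m hnm (hp1 _)
  rw [hseq] at h1
  exact h1.2

/-- **The algebraic core.** -/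
theorem exists_hidden_seq {μ ν : V → ℝ} (hμ : Sublin μ) (hν : Sublin ν)
    (hν0 : ∀ v, 0 ≤ ν v) (hns : ¬ Small μ {v | ν v < μ v}) :
    ∃ z : ℕ → V, (∀ n, ν (z n) ≤ 1 ∧ 1 < μ (z n)) ∧
      ∀ n m, n < m → ∃ w ∈ segment ℝ (z n) (z m), μ w ≤ 1 := by
  obtain ⟨x, ε, hx, hlt⟩ := exists_seq hμ (pert_lt hμ hν) hns
  have hx1 : ∀ n, ν (x n) < μ (x n) := fun n => (hx n).1
  -- choose the heights
  have hex : ∀ m, ∃ e : ℝ, 0 < e ∧ e ≤ ε m ∧ e < μ (x m) - ν (x m) ∧
      ∀ n < m, ∃ t : ℝ, 0 < t ∧ μ (x m + t • x n) ≤ μ (x m) - e + t * (μ (x n) - ε n) := by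
    intro m
    have h1 : ∀ᶠ e : ℝ in 𝓝[>] 0, 0 < e := eventually_mem_nhdsWithin
    have h2 : ∀ᶠ e : ℝ in 𝓝[>] 0, e < ε m :=
      (eventually_lt_nhds (hx m).2).filter_mono nhdsWithin_le_nhds
    have h3 : ∀ᶠ e : ℝ in 𝓝[>] 0, e < μ (x m) - ν (x m) :=
      (eventually_lt_nhds (sub_pos.2 (hx1 m))).filter_mono nhdsWithin_le_nhds
    have h4 : ∀ n ∈ Finset.range m, ∀ᶠ e : ℝ in 𝓝[>] 0,
        ∃ t : ℝ, 0 < t ∧ μ (x m + t • x n) ≤ μ (x m) - e + t * (μ (x n) - ε n) := by
      intro n hn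
      obtain ⟨t, ht, hlt'⟩ := hlt n m (Finset.mem_range.1 hn)
      have : ∀ᶠ e : ℝ in 𝓝[>] 0, e < μ (x m) + t * (μ (x n) - ε n) - μ (x m + t • x n) :=
        (eventually_lt_nhds (by linarith)).filter_mono nhdsWithin_le_nhds
      filter_upwards [this] with e he
      exact ⟨t, ht, by linarith⟩
    have h4' := (Finset.eventually_all (Finset.range m)).2 h4
    obtain ⟨e, ⟨⟨he1, he2⟩, he3⟩, he4⟩ := (((h1.and h2).and h3).and h4').exists
    exact ⟨e, he1, he2.le, he3, fun n hn => he4 n (Finset.mem_range.2 hn)⟩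
  choose e he1 he2 he3 he4 using hex
  have hα : ∀ n, 0 < μ (x n) - e n := fun n => by
    have := hν0 (x n); have := he3 n; linarith
  refine ⟨fun n => (μ (x n) - e n)⁻¹ • x n, fun n => ⟨?_, ?_⟩, fun n m hnm => ?_⟩
  · rw [hν.smul _ (inv_nonneg.2 (hα n).le), inv_mul_le_iff₀ (hα n), mul_one]
    linarith [he3 n]
  · rw [hμ.smul _ (inv_nonneg.2 (hα n).le), lt_inv_mul_iff₀ (hα n), mul_one]
    linarith [he1 n]
  · obtain ⟨t, ht, hle⟩ := he4 m n hnm
    set a := μ (x n) - e n with ha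
    set b := μ (x m) - e m with hb
    have hapos : 0 < a := hα n
    have hbpos : 0 < b := hα m
    have hpos : 0 < b + t * a := by positivity
    refine ⟨(b + t * a)⁻¹ • (x m + t • x n), ?_, ?_⟩
    · refine ⟨t * a / (b + t * a), b / (b + t * a), by positivity, by positivity, ?_, ?_⟩
      · field_simp; ring
      · rw [smul_smul, smul_smul, smul_add, smul_smul]
        have e1 : t * a / (b + t * a) * a⁻¹ = (b + t * a)⁻¹ * t := by
          field_simp
        have e2 : b / (b + t * a) * b⁻¹ = (b + t * a)⁻¹ := by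
          field_simp
        rw [e1, e2, add_comm]
    · rw [hμ.smul _ (inv_nonneg.2 hpos.le), inv_mul_le_iff₀ hpos, mul_one]
      have h5 := he2 n
      have : t * (μ (x n) - ε n) ≤ t * a := mul_le_mul_of_nonneg_left (by rw [ha]; linarith) ht.le
      rw [hb]; linarith

end Pool.Agent.R270.Hidden
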