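import Pool.Agent.R270.Hidden.Core

/-!
# Hidden sets: the topological part
-/

namespace Pool.Agent.R270.Hidden

open Set Filter Topology TopologicalSpace

variable {X : Type*} [AddCommGroup X] [Module ℝ X]

/-- `S` is covered by `k` convex sets disjoint from `C`. -/
def FinCov (C : Set X) (k : ℕ) (S : Set X) : Prop :=
  ∃ K : Fin k → Set X, (∀ i, Convex ℝ (K i) ∧ Disjoint (K i) C) ∧ S ⊆ ⋃ i, K i

/-- Compactness of finite convex coverings. -/
theorem finCov_of_finite {C S : Set X} {k : ℕ}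
    (H : ∀ T : Finset X, ↑T ⊆ S → FinCov C k ↑T) : FinCov C k S := by
  classical
  have hT : ∀ T : Finset S, ∃ (K : Fin k → Set X), (∀ i, Convex ℝ (K i) ∧ Disjoint (K i) C) ∧
      ∀ s ∈ T, ∃ i, (s : X) ∈ K i := by
    intro T
    obtain ⟨K, hK, hcov⟩ := H (T.image Subtype.val) (by
      intro x hx
      simp only [Finset.coe_image, mem_image, Finset.mem_coe] at hx
      obtain ⟨s, _, rfl⟩ := hx
      exact s.2)
    refine ⟨K, hK, fun s hs => ?_⟩
    have := hcov (show (s : X) ∈ (↑(T.image Subtype.val) : Set X) by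
      simp only [Finset.coe_image, mem_image, Finset.mem_coe]
      exact ⟨s, hs, rfl⟩)
    exact mem_iUnion.1 this
  rcases Nat.eq_zero_or_pos k with rfl | hk
  · refine ⟨fun i => i.elim0, fun i => i.elim0, fun x hx => ?_⟩
    obtain ⟨K, _, hK⟩ := hT {⟨x, hx⟩}
    obtain ⟨i, _⟩ := hK ⟨x, hx⟩ (by simp)
    exact i.elim0
  choose K hK hc using hT
  have hc' : ∀ (T : Finset S) (s : S), ∃ i, s ∈ T → (s : X) ∈ K T i := by
    intro T s
    by_cases hs : s ∈ T
    · obtain ⟨i, hi⟩ := hc T s hs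
      exact ⟨i, fun _ => hi⟩
    · exact ⟨⟨0, hk⟩, fun h => absurd h hs⟩
  choose c hcc using hc'
  let 𝒰 : Ultrafilter (Finset S) := Ultrafilter.of atTop
  have hcol : ∀ s : S, ∃ i, ∀ᶠ T in (𝒰 : Filter (Finset S)), c T s = i := by
    intro s
    obtain ⟨i, hi⟩ := (𝒰.map (fun T => c T s)).eq_pure_of_finite
    refine ⟨i, ?_⟩
    have : {i} ∈ 𝒰.map (fun T => c T s) := by
      rw [hi]; exact mem_pure.2 rfl
    exact this
  choose col hcol using hcol
  refine ⟨fun i => convexHull ℝ (Subtype.val '' {s : S | col s = i}),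
    fun i => ⟨convex_convexHull _ _, ?_⟩, ?_⟩
  · rw [Set.disjoint_left]
    intro p hp hpC
    dsimp only at hp
    rw [convexHull_eq_union_convexHull_finite_subsets] at hp
    simp only [mem_iUnion] at hp
    obtain ⟨t, ht, hpt⟩ := hp
    have hev : ∀ᶠ T in (𝒰 : Filter (Finset S)), ∀ x ∈ t, x ∈ K T i := by
      rw [Finset.eventually_all]
      intro x hx
      obtain ⟨s, hs, rfl⟩ := ht hx
      have h1 := hcol s
      have h2 : ∀ᶠ T in (𝒰 : Filter (Finset S)), s ∈ T := by
        apply (Ultrafilter.of_le (atTop : Filter (Finset S)))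
        filter_upwards [eventually_ge_atTop ({s} : Finset S)] with T hT
        exact hT (by simp)
      filter_upwards [h1, h2] with T h1 h2
      have := hcc T s h2
      rw [h1, hs] at this
      exact this
    obtain ⟨T, hT⟩ := hev.exists
    have : p ∈ K T i := convexHull_min (fun x hx => hT x hx) (hK T i).1 hpt
    exact Set.disjoint_left.1 (hK T i).2 this hpC
  · intro x hx
    exact mem_iUnion.2 ⟨col ⟨x, hx⟩, subset_convexHull _ _ ⟨⟨x, hx⟩, rfl, rfl⟩⟩

section Top

variable [TopologicalSpace X] [IsTopologicalAddGroup X] [ContinuousSMul ℝ X]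

/-- An infinite convex combination of given points of a closed convex set in a complete linear
metric space is relatively algebraically interior to their span. -/
theorem exists_center [IsCompletelyMetrizableSpace X] {C : Set X} (hC : IsClosed C)
    (hCc : Convex ℝ C) (q : ℕ → X) (hq : ∀ n, q n ∈ C) :
    ∃ c ∈ C, ∀ n, ∃ ε : ℝ, 0 < ε ∧ c + ε • (c - q n) ∈ C := by
  classical
  letI := upgradeIsCompletelyMetrizable X
  have hpick : ∀ (A : ℝ) (s r : X) (N : ℕ), ∃ a : ℝ, 0 < A → (0 < a ∧ a ≤ (1 / 2) ^ (N + 1) ∧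
      dist (A⁻¹ • s) ((A + a)⁻¹ • (s + a • r)) ≤ 1 * (1 / 2) ^ N) := by
    intro A s r N
    by_cases hA : 0 < A
    swap
    · exact ⟨0, fun h => absurd h hA⟩
    have hcont : ContinuousAt (fun a : ℝ => dist (A⁻¹ • s) ((A + a)⁻¹ • (s + a • r))) 0 := by
      have h1 : ContinuousAt (fun a : ℝ => (A + a)⁻¹) 0 := by
        apply ContinuousAt.inv₀
        · fun_prop
        · simpa using hA.ne'
      have h2 : ContinuousAt (fun a : ℝ => s + a • r) 0 := by fun_prop
      exact continuousAt_const.dist (h1.smul h2)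
    have h0 : (fun a : ℝ => dist (A⁻¹ • s) ((A + a)⁻¹ • (s + a • r))) 0 < 1 * (1 / 2) ^ N := by
      simp
    have h1 : ∀ᶠ a : ℝ in 𝓝[>] 0, dist (A⁻¹ • s) ((A + a)⁻¹ • (s + a • r)) < 1 * (1 / 2) ^ N :=
      (hcont.eventually_lt continuousAt_const h0).filter_mono nhdsWithin_le_nhds
    have h2 : ∀ᶠ a : ℝ in 𝓝[>] 0, a < (1 / 2) ^ (N + 1) :=
      (eventually_lt_nhds (by positivity)).filter_mono nhdsWithin_le_nhds
    have h3 : ∀ᶠ a : ℝ in 𝓝[>] 0, 0 < a := eventually_mem_nhdsWithin
    obtain ⟨a, ⟨ha1, ha2⟩, ha3⟩ := ((h1.and h2).and h3).exists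
    exact ⟨a, fun _ => ⟨ha3, ha2.le, ha1.le⟩⟩
  choose pick hpick using hpick
  let st : ℕ → ℝ × X := fun n => Nat.rec (1, q 0)
    (fun n p => (p.1 + pick p.1 p.2 (q (n + 1)) n,
      p.2 + pick p.1 p.2 (q (n + 1)) n • q (n + 1))) n
  let a : ℕ → ℝ := fun n => Nat.casesOn n 1 (fun n => pick (st n).1 (st n).2 (q (n + 1)) n)
  have hst1 : ∀ n, (st (n + 1)).1 = (st n).1 + a (n + 1) := fun n => rfl
  have hst2 : ∀ n, (st (n + 1)).2 = (st n).2 + a (n + 1) • q (n + 1) := fun n => rfl
  have hpos : ∀ n, 1 ≤ (st n).1 := by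
    intro n
    induction n with
    | zero => exact le_rfl
    | succ n ih =>
      rw [hst1]
      have : 0 < a (n + 1) := (hpick (st n).1 (st n).2 (q (n + 1)) n (by linarith)).1
      linarith
  have hapos : ∀ n, 0 < a n := by
    intro n
    cases n with
    | zero => exact one_pos
    | succ n => exact (hpick (st n).1 (st n).2 (q (n + 1)) n (by linarith [hpos n])).1
  have hale : ∀ n, a n ≤ 2 * (1 / 2) ^ (n + 1) := by
    intro n
    cases n with
    | zero => show (1 : ℝ) ≤ _; norm_num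
    | succ n =>
      have h1 : a (n + 1) ≤ (1 / 2) ^ (n + 1) :=
        (hpick (st n).1 (st n).2 (q (n + 1)) n (by linarith [hpos n])).2.1
      have : (2 : ℝ) * (1 / 2) ^ (n + 1 + 1) = (1 / 2) ^ (n + 1) := by rw [pow_succ]; ring
      rw [this]; exact h1
  have hsum : Summable a := by
    refine Summable.of_nonneg_of_le (fun n => (hapos n).le) hale ?_
    have h := (summable_geometric_of_lt_one (by norm_num : (0 : ℝ) ≤ 1 / 2) (by norm_num))
    have h2 := (h.mul_left (1 / 2)).mul_left 2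
    refine h2.congr fun n => ?_
    rw [pow_succ]; ring
  have hA : ∀ n, (st n).1 = ∑ j ∈ Finset.range (n + 1), a j := by
    intro n
    induction n with
    | zero => simp [st, a]
    | succ n ih => rw [hst1, ih, Finset.sum_range_succ _ (n + 1)]
  have hS : ∀ n, (st n).2 = ∑ j ∈ Finset.range (n + 1), a j • q j := by
    intro n
    induction n with
    | zero => simp [st, a]
    | succ n ih => rw [hst2, ih, Finset.sum_range_succ _ (n + 1)]
  set b : ℕ → X := fun n => ((st n).1)⁻¹ • (st n).2 with hb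
  have hcau : CauchySeq b := by
    refine cauchySeq_of_le_geometric (1 / 2) 1 (by norm_num) fun n => ?_
    exact (hpick (st n).1 (st n).2 (q (n + 1)) n (by linarith [hpos n])).2.2
  obtain ⟨c, hc⟩ := cauchySeq_tendsto_of_complete hcau
  have hAlim : Tendsto (fun n => (st n).1) atTop (𝓝 (∑' j, a j)) := by
    have := (hsum.hasSum.tendsto_sum_nat).comp (tendsto_add_atTop_nat 1)
    refine this.congr fun n => ?_
    rw [hA]; rfl
  set Al := ∑' j, a j with hAl
  have hSlim : Tendsto (fun n => (st n).2) atTop (𝓝 (Al • c)) := by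
    refine (hAlim.smul hc).congr fun n => ?_
    show (st n).1 • ((st n).1)⁻¹ • (st n).2 = (st n).2
    rw [smul_smul, mul_inv_cancel₀ (by linarith [hpos n]), one_smul]
  -- general membership of partial sums
  have hmem : ∀ (F : Finset ℕ), 0 < ∑ j ∈ F, a j →
      (∑ j ∈ F, a j)⁻¹ • ∑ j ∈ F, a j • q j ∈ C := by
    intro F hF
    have := hCc.centerMass_mem (t := F) (w := a) (z := q) (fun i _ => (hapos i).le) hF
      (fun i _ => hq i)
    simpa [Finset.centerMass] using this
  have hcC : c ∈ C := by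
    refine hC.mem_of_tendsto hc (Eventually.of_forall fun n => ?_)
    have h1 := hmem (Finset.range (n + 1)) (by rw [← hA]; linarith [hpos n])
    show ((st n).1)⁻¹ • (st n).2 ∈ C
    rw [hA, hS]; exact h1
  refine ⟨c, hcC, fun n => ?_⟩
  have hAn : 0 < Al - a n := by
    have h1 : ∑ j ∈ ({n, n + 1} : Finset ℕ), a j ≤ Al :=
      hsum.sum_le_tsum _ (fun i _ => (hapos i).le)
    rw [Finset.sum_pair (by omega)] at h1
    linarith [hapos (n + 1)]
  refine ⟨a n / (Al - a n), div_pos (hapos n) hAn, ?_⟩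
  have e : c + (a n / (Al - a n)) • (c - q n) = (Al - a n)⁻¹ • (Al • c - a n • q n) := by
    have h1 : (Al - a n)⁻¹ • (Al • c - a n • q n) =
        ((Al - a n)⁻¹ * Al) • c - ((Al - a n)⁻¹ * a n) • q n := by
      rw [smul_sub, smul_smul, smul_smul]
    have h2 : (Al - a n)⁻¹ * Al = 1 + a n / (Al - a n) := by
      field_simp; ring
    have h3 : (Al - a n)⁻¹ * a n = a n / (Al - a n) := by
      rw [div_eq_inv_mul]
    rw [h1, h2, h3]; module
  rw [e]
  have hlim : Tendsto (fun N => ((st N).1 - a n)⁻¹ • ((st N).2 - a n • q n)) atTop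
      (𝓝 ((Al - a n)⁻¹ • (Al • c - a n • q n))) := by
    refine Tendsto.smul ?_ (hSlim.sub tendsto_const_nhds)
    exact (hAlim.sub tendsto_const_nhds).inv₀ hAn.ne'
  refine hC.mem_of_tendsto hlim ?_
  filter_upwards [eventually_ge_atTop (n + 1)] with N hN
  have hin : n ∈ Finset.range (N + 1) := Finset.mem_range.2 (by omega)
  have h1 : (st N).1 - a n = ∑ j ∈ (Finset.range (N + 1)).erase n, a j := by
    rw [hA, ← Finset.add_sum_erase _ _ hin]; ring
  have h2 : (st N).2 - a n • q n = ∑ j ∈ (Finset.range (N + 1)).erase n, a j • q j := by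
    rw [hS, ← Finset.add_sum_erase _ _ hin]; abel
  rw [h1, h2]
  apply hmem
  apply Finset.sum_pos (fun i _ => hapos i)
  exact ⟨n + 1, Finset.mem_erase.2 ⟨by omega, Finset.mem_range.2 (by omega)⟩⟩

/-- The gauge characterises closed convex sets. -/
theorem mem_of_gauge_le {E : Set X} (hE : IsClosed E) (hEc : Convex ℝ E) {c : X} (hc : c ∈ E)
    (V : Submodule ℝ X) (habs : Absorbent ℝ {v : V | c + (v : X) ∈ E}) {v : V}
    (h : gauge {v : V | c + (v : X) ∈ E} v ≤ 1) : c + (v : X) ∈ E := by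
  have key : ∀ r : ℝ, 1 < r → c + r⁻¹ • (v : X) ∈ E := by
    intro r hr
    obtain ⟨b, hb0, hbr, u, hu, rfl⟩ := exists_lt_of_gauge_lt habs (h.trans_lt hr)
    have hu' : c + (u : X) ∈ E := hu
    have h1 : r⁻¹ * b ≤ 1 := by
      rw [inv_mul_le_iff₀ (by linarith)]; linarith
    have h0 : 0 ≤ r⁻¹ * b := by positivity
    have := hEc hc hu' (by linarith : (0 : ℝ) ≤ 1 - r⁻¹ * b) h0 (by ring)
    convert this using 1
    show c + r⁻¹ • ((b • u : V) : X) = _
    rw [Submodule.coe_smul]
    module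
  have hlim : Tendsto (fun n : ℕ => c + (1 + 1 / ((n : ℝ) + 1))⁻¹ • (v : X)) atTop
      (𝓝 (c + (1 + 0 : ℝ)⁻¹ • (v : X))) := by
    refine Tendsto.const_add _ (Tendsto.smul_const ?_ _)
    refine Tendsto.inv₀ (tendsto_const_nhds.add tendsto_one_div_add_atTop_nhds_zero_nat) (by norm_num)
  have e : c + (1 + 0 : ℝ)⁻¹ • (v : X) = c + v := by simp
  rw [e] at hlim
  refine hE.mem_of_tendsto hlim (Eventually.of_forall fun n => key _ ?_)
  have : (0 : ℝ) < 1 / ((n : ℝ) + 1) := by positivity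
  linarith

/-- The main direction. -/
theorem exists_hidden [IsCompletelyMetrizableSpace X] {C D : Set X} (hC : IsClosed C)
    (hD : IsClosed D) (hCc : Convex ℝ C) (hDc : Convex ℝ D) (hCD : C ⊆ D)
    (hno : ∀ k, ¬ FinCov C k ((D ∩ (affineSpan ℝ C : Set X)) \ C)) :
    ∃ a : ℕ → X, (∀ n, a n ∈ D \ C) ∧ ∀ n m, n < m → (segment ℝ (a n) (a m) ∩ C).Nonempty := by
  classical
  have hfin : ∀ k, ∃ T : Finset X, ↑T ⊆ (D ∩ (affineSpan ℝ C : Set X)) \ C ∧
      ¬ FinCov C k (↑T : Set X) := by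
    intro k
    by_contra hcon
    push Not at hcon
    exact hno k (finCov_of_finite hcon)
  choose T hTS hT using hfin
  have hF : ∀ a ∈ (affineSpan ℝ C : Set X), ∃ F : Finset X, ↑F ⊆ C ∧ ∃ w : X → ℝ,
      ∑ i ∈ F, w i = 1 ∧ a = ∑ i ∈ F, w i • i := by
    intro a ha
    have ha' : a ∈ affineSpan ℝ (Set.range (Subtype.val : C → X)) := by
      rw [Subtype.range_coe]; exact ha
    obtain ⟨s, w, hw, he⟩ := eq_affineCombination_of_mem_affineSpan ha'
    rw [Finset.affineCombination_eq_linear_combination _ _ _ hw] at he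
    refine ⟨s.map (Function.Embedding.subtype _), ?_,
      fun x => if hx : x ∈ C then w ⟨x, hx⟩ else 0, ?_, ?_⟩
    · intro x hx
      simp only [Finset.coe_map, mem_image, Finset.mem_coe] at hx
      obtain ⟨y, _, rfl⟩ := hx
      exact y.2
    · rw [Finset.sum_map, ← hw]
      exact Finset.sum_congr rfl fun i _ => by simp
    · rw [he, Finset.sum_map]
      exact Finset.sum_congr rfl fun i _ => by simp
  choose! F hFC w hw1 hw2 using hF
  set Q : Set X := ⋃ k, ⋃ a ∈ (T k : Set X), (F a : Set X) with hQ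
  have hQc : Q.Countable := by
    refine countable_iUnion fun k => ?_
    exact (T k).finite_toSet.countable.biUnion fun a _ => (F a).finite_toSet.countable
  have haff : ∀ k, ∀ a ∈ T k, a ∈ (affineSpan ℝ C : Set X) := fun k a ha => ((hTS k) ha).1.2
  have hQC : Q ⊆ C := by
    intro x hx
    simp only [hQ, mem_iUnion] at hx
    obtain ⟨k, a, ha, hx⟩ := hx
    exact hFC a (haff k a ha) hx
  have hQne : Q.Nonempty := by
    have h0 : (T 0 : Set X).Nonempty := by
      by_contra hemp
      rw [not_nonempty_iff_eq_empty] at hemp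
      apply hT 0
      rw [hemp]
      exact ⟨fun i => i.elim0, fun i => i.elim0, empty_subset _⟩
    obtain ⟨a, ha⟩ := h0
    have h1 : (F a).Nonempty := by
      by_contra hemp
      rw [Finset.not_nonempty_iff_eq_empty] at hemp
      have := hw1 a (haff 0 a ha)
      rw [hemp] at this
      simp at this
    obtain ⟨x, hx⟩ := h1
    exact ⟨x, mem_iUnion.2 ⟨0, mem_iUnion₂.2 ⟨a, ha, hx⟩⟩⟩
  obtain ⟨q, hq⟩ := hQc.exists_eq_range hQne
  have hqC : ∀ n, q n ∈ C := fun n => hQC (by rw [hq]; exact mem_range_self n)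
  obtain ⟨c, hcC, hce⟩ := exists_center hC hCc q hqC
  set V : Submodule ℝ X := Submodule.span ℝ (Set.range fun n => q n - c) with hV
  have hP : ∀ v ∈ V, ∃ ε : ℝ, 0 < ε ∧ c + ε • v ∈ C ∧ c - ε • v ∈ C := by
    intro v hv
    refine Submodule.span_induction (p := fun v _ => ∃ ε : ℝ, 0 < ε ∧ c + ε • v ∈ C ∧
      c - ε • v ∈ C) ?_ ?_ ?_ ?_ hv
    · rintro _ ⟨n, rfl⟩
      obtain ⟨ε, hε, h⟩ := hce n
      -- shrink to `min ε 1`
      refine ⟨min ε 1, lt_min hε one_pos, ?_, ?_⟩
      · have := hCc hcC (hqC n) (by linarith [min_le_right ε 1] : (0 : ℝ) ≤ 1 - min ε 1)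
          (le_min hε.le zero_le_one) (by ring)
        convert this using 1
        module
      · have h1 : min ε 1 / ε ≤ 1 := by
          rw [div_le_one hε]; exact min_le_left _ _
        have h0 : 0 ≤ min ε 1 / ε := div_nonneg (le_min hε.le zero_le_one) hε.le
        have := hCc hcC h (by linarith : (0 : ℝ) ≤ 1 - min ε 1 / ε) h0 (by ring)
        convert this using 1
        have e : min ε 1 = min ε 1 / ε * ε := by field_simp
        have e2 : (1 - min ε 1 / ε) • c + (min ε 1 / ε) • (c + ε • (c - q n)) =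
            c - (min ε 1 / ε * ε) • (q n - c) := by module
        rw [e2, ← e]
    · exact ⟨1, one_pos, by simpa using hcC, by simpa using hcC⟩
    · rintro x y _ _ ⟨ε, hε, h1, h2⟩ ⟨δ, hδ, h3, h4⟩
      -- use `(ε δ) / (ε + δ)`
      have hs : 0 < ε + δ := by positivity
      refine ⟨ε * δ / (ε + δ), by positivity, ?_, ?_⟩
      · have := hCc h1 h3 (by positivity : (0 : ℝ) ≤ δ / (ε + δ))
          (by positivity : (0 : ℝ) ≤ ε / (ε + δ)) (by field_simp; ring)
        convert this using 1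
        have e1 : c = (δ / (ε + δ) + ε / (ε + δ)) • c := by
          rw [← add_div, add_comm δ ε, div_self hs.ne', one_smul]
        have e2 : ε * δ / (ε + δ) = δ / (ε + δ) * ε := by ring
        have e3 : ε * δ / (ε + δ) = ε / (ε + δ) * δ := by ring
        calc c + (ε * δ / (ε + δ)) • (x + y)
            = c + ((ε * δ / (ε + δ)) • x + (ε * δ / (ε + δ)) • y) := by rw [smul_add]
          _ = (δ / (ε + δ) + ε / (ε + δ)) • c +
              ((δ / (ε + δ) * ε) • x + (ε / (ε + δ) * δ) • y) := by rw [← e1, ← e2, ← e3]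
          _ = _ := by module
      · have := hCc h2 h4 (by positivity : (0 : ℝ) ≤ δ / (ε + δ))
          (by positivity : (0 : ℝ) ≤ ε / (ε + δ)) (by field_simp; ring)
        convert this using 1
        have e1 : c = (δ / (ε + δ) + ε / (ε + δ)) • c := by
          rw [← add_div, add_comm δ ε, div_self hs.ne', one_smul]
        have e2 : ε * δ / (ε + δ) = δ / (ε + δ) * ε := by ring
        have e3 : ε * δ / (ε + δ) = ε / (ε + δ) * δ := by ring
        calc c - (ε * δ / (ε + δ)) • (x + y)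
            = c - ((ε * δ / (ε + δ)) • x + (ε * δ / (ε + δ)) • y) := by rw [smul_add]
          _ = (δ / (ε + δ) + ε / (ε + δ)) • c -
              ((δ / (ε + δ) * ε) • x + (ε / (ε + δ) * δ) • y) := by rw [← e1, ← e2, ← e3]
          _ = _ := by module
    · rintro r x _ ⟨ε, hε, h1, h2⟩
      have hr : 0 < |r| + 1 := by positivity
      -- `ε / (|r| + 1)`
      have h3 : |r| / (|r| + 1) ≤ 1 := by rw [div_le_one hr]; linarith
      have h0 : 0 ≤ |r| / (|r| + 1) := by positivity
      have h4 := hCc hcC h1 (by linarith : (0 : ℝ) ≤ 1 - |r| / (|r| + 1)) h0 (by ring)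
      have h5 := hCc hcC h2 (by linarith : (0 : ℝ) ≤ 1 - |r| / (|r| + 1)) h0 (by ring)
      have e4 : (1 - |r| / (|r| + 1)) • c + (|r| / (|r| + 1)) • (c + ε • x) =
          c + (ε / (|r| + 1) * |r|) • x := by
        have : |r| / (|r| + 1) * ε = ε / (|r| + 1) * |r| := by ring
        rw [← this]; module
      have e5 : (1 - |r| / (|r| + 1)) • c + (|r| / (|r| + 1)) • (c - ε • x) =
          c - (ε / (|r| + 1) * |r|) • x := by
        have : |r| / (|r| + 1) * ε = ε / (|r| + 1) * |r| := by ring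
        rw [← this]; module
      rw [e4] at h4
      rw [e5] at h5
      refine ⟨ε / (|r| + 1), by positivity, ?_⟩
      rcases le_total 0 r with hr0 | hr0
      · rw [abs_of_nonneg hr0] at h4 h5 ⊢
        rw [smul_smul]
        exact ⟨h4, h5⟩
      · rw [abs_of_nonpos hr0] at h4 h5 ⊢
        rw [smul_smul]
        have e6 : ε / (-r + 1) * r = -(ε / (-r + 1) * -r) := by ring
        rw [e6, neg_smul, ← sub_eq_add_neg, sub_neg_eq_add]
        exact ⟨h5, h4⟩
  set C1 : Set V := {v : V | c + (v : X) ∈ C} with hC1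
  set D1 : Set V := {v : V | c + (v : X) ∈ D} with hD1
  have hcD : c ∈ D := hCD hcC
  have hconv : ∀ {E : Set X}, Convex ℝ E → Convex ℝ {v : V | c + (v : X) ∈ E} := by
    intro E hE x hx y hy α β hα hβ hαβ
    have := hE hx hy hα hβ hαβ
    show c + ((α • x + β • y : V) : X) ∈ E
    convert this using 1
    rw [Submodule.coe_add, Submodule.coe_smul, Submodule.coe_smul]
    have e1 : c = (α + β) • c := by rw [hαβ, one_smul]
    calc c + (α • (x : X) + β • (y : X)) = (α + β) • c + (α • (x : X) + β • (y : X)) := by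
          rw [← e1]
      _ = _ := by module
  have hC1abs : Absorbent ℝ C1 := by
    rw [absorbent_iff_eventually_nhdsNE_zero]
    intro v
    obtain ⟨ε, hε, h1, h2⟩ := hP v v.2
    have hev : ∀ᶠ r : ℝ in 𝓝 0, |r| < ε := by
      have : ContinuousAt (fun r : ℝ => |r|) 0 := by fun_prop
      exact this.eventually_lt continuousAt_const (by simpa using hε)
    filter_upwards [hev.filter_mono nhdsWithin_le_nhds] with r hr
    show c + ((r • v : V) : X) ∈ C
    rw [Submodule.coe_smul]
    rcases le_total 0 r with hr0 | hr0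
    · rw [abs_of_nonneg hr0] at hr
      have := hCc hcC h1 (by rw [sub_nonneg, div_le_one hε]; exact hr.le :
        (0 : ℝ) ≤ 1 - r / ε) (div_nonneg hr0 hε.le) (by ring)
      convert this using 1
      have e : (1 - r / ε) • c + (r / ε) • (c + ε • (v : X)) = c + (r / ε * ε) • (v : X) := by
        module
      rw [e, div_mul_cancel₀ _ hε.ne']
    · rw [abs_of_nonpos hr0] at hr
      have := hCc hcC h2 (by rw [sub_nonneg, div_le_one hε]; exact hr.le :
        (0 : ℝ) ≤ 1 - -r / ε) (div_nonneg (by linarith) hε.le : (0 : ℝ) ≤ -r / ε) (by ring)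
      convert this using 1
      have e : (1 - -r / ε) • c + (-r / ε) • (c - ε • (v : X)) = c - (-r / ε * ε) • (v : X) := by
        module
      rw [e, div_mul_cancel₀ _ hε.ne', neg_smul, sub_neg_eq_add]
  have hD1abs : Absorbent ℝ D1 := hC1abs.mono (fun v hv => hCD hv)
  have hμ : Sublin (gauge C1) := ⟨fun x y => gauge_add_le (hconv hCc) hC1abs x y,
    fun r hr x => by rw [gauge_smul_of_nonneg hr, smul_eq_mul]⟩
  have hν : Sublin (gauge D1) := ⟨fun x y => gauge_add_le (hconv hDc) hD1abs x y,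
    fun r hr x => by rw [gauge_smul_of_nonneg hr, smul_eq_mul]⟩
  have hCiff : ∀ v : V, gauge C1 v ≤ 1 ↔ c + (v : X) ∈ C := fun v =>
    ⟨mem_of_gauge_le hC hCc hcC V hC1abs, fun h => gauge_le_one_of_mem h⟩
  have hDiff : ∀ v : V, gauge D1 v ≤ 1 ↔ c + (v : X) ∈ D := fun v =>
    ⟨mem_of_gauge_le hD hDc hcD V hD1abs, fun h => gauge_le_one_of_mem h⟩
  have hTV : ∀ k, ∀ a ∈ T k, a - c ∈ V := by
    intro k a ha
    have h1 := hw1 a (haff k a ha)
    have h2 := hw2 a (haff k a ha)
    have : a - c = ∑ i ∈ F a, w a i • (i - c) := by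
      simp only [smul_sub, Finset.sum_sub_distrib, ← Finset.sum_smul]
      rw [h1, one_smul, ← h2]
    rw [this]
    refine V.sum_mem fun i hi => V.smul_mem _ ?_
    have hiQ : i ∈ Q := mem_iUnion.2 ⟨k, mem_iUnion₂.2 ⟨a, ha, hi⟩⟩
    rw [hq] at hiQ
    obtain ⟨n, rfl⟩ := hiQ
    exact Submodule.subset_span ⟨n, rfl⟩
  have hns : ¬ Small (gauge C1) {v | gauge D1 v < gauge C1 v} := by
    rintro ⟨L, hL1, hL2⟩
    apply hT L.card
    refine ⟨fun i => {x | ∃ v : V, x = c + v ∧ 1 < ((L.equivFin.symm i : L) : V →ₗ[ℝ] ℝ) v},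
      fun i => ⟨?_, ?_⟩, ?_⟩
    · rintro _ ⟨v, rfl, hv⟩ _ ⟨u, rfl, hu⟩ α β hα hβ hαβ
      refine ⟨α • v + β • u, ?_, ?_⟩
      · rw [Submodule.coe_add, Submodule.coe_smul, Submodule.coe_smul]
        have e1 : c = (α + β) • c := by rw [hαβ, one_smul]
        calc α • (c + (v : X)) + β • (c + (u : X))
            = (α + β) • c + (α • (v : X) + β • (u : X)) := by module
          _ = _ := by rw [← e1]
      · rw [map_add, map_smul, map_smul, smul_eq_mul, smul_eq_mul]
        rcases hα.eq_or_lt with h0 | h0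
        · have : β = 1 := by linarith
          rw [← h0, this]; linarith
        · nlinarith
    · rw [Set.disjoint_left]
      rintro _ ⟨v, rfl, hv⟩ hvC
      have h1 := (hCiff v).2 hvC
      have h2 := hL1 _ (L.equivFin.symm i).2 v
      linarith
    · intro a ha
      have haV := hTV _ a ha
      have hD' : gauge D1 ⟨a - c, haV⟩ ≤ 1 := by
        rw [hDiff]; simpa using ((hTS _) ha).1.1
      have hC' : 1 < gauge C1 ⟨a - c, haV⟩ := by
        by_contra hcon
        push Not at hcon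
        rw [hCiff] at hcon
        apply ((hTS _) ha).2
        simpa using hcon
      obtain ⟨l, hl, hle⟩ := hL2 ⟨a - c, haV⟩ (lt_of_le_of_lt hD' hC')
      refine mem_iUnion.2 ⟨L.equivFin ⟨l, hl⟩, ⟨a - c, haV⟩, by simp, ?_⟩
      rw [Equiv.symm_apply_apply]
      exact hC'.trans_le hle
  obtain ⟨z, hz1, hz2⟩ := exists_hidden_seq hμ hν (fun v => gauge_nonneg v) hns
  refine ⟨fun n => c + z n, fun n => ⟨(hDiff _).1 (hz1 n).1, fun h => ?_⟩, fun n m hnm => ?_⟩
  · have := (hCiff _).2 h
    linarith [(hz1 n).2]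
  · obtain ⟨y, ⟨α, β, hα, hβ, hαβ, rfl⟩, hy⟩ := hz2 n m hnm
    rw [hCiff] at hy
    refine ⟨_, ⟨α, β, hα, hβ, hαβ, rfl⟩, ?_⟩
    convert hy using 1
    rw [Submodule.coe_add, Submodule.coe_smul, Submodule.coe_smul]
    have e1 : c = (α + β) • c := by rw [hαβ, one_smul]
    calc α • (c + (z n : X)) + β • (c + (z m : X))
        = (α + β) • c + (α • (z n : X) + β • (z m : X)) := by module
      _ = _ := by rw [← e1]

end Top

end Pool.Agent.R270.Hidden
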